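import Pool.Agent.Helper17.SV.Stmts

set_option autoImplicit false

open Finset

namespace Pool.Agent.Helper17.SV

/-- the equivalence relation whose classes are the orbits of `N` -/
def qmSetoid {X : Type} (N : Subgroup (Equiv.Perm X)) : Setoid X where
  r x y := ∃ a ∈ N, a x = y
  iseqv := by
    refine ⟨fun x => ⟨1, N.one_mem, rfl⟩, ?_, ?_⟩
    · rintro x y ⟨a, ha, rfl⟩
      exact ⟨a⁻¹, N.inv_mem ha, by simp⟩
    · rintro x y z ⟨a, ha, rfl⟩ ⟨b, hb, rfl⟩
      exact ⟨b * a, N.mul_mem hb ha, rfl⟩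

/-- the map induced by a permutation normalizing `N` -/
def qmMap {X : Type} (N : Subgroup (Equiv.Perm X)) (g : Equiv.Perm X)
    (hg : ∀ a ∈ N, g * a * g⁻¹ ∈ N) : Quotient (qmSetoid N) → Quotient (qmSetoid N) :=
  Quotient.map (fun x => g x) (by
    rintro x y ⟨a, ha, rfl⟩
    exact ⟨g * a * g⁻¹, hg a ha, by simp⟩)

theorem qmMap_mk {X : Type} (N : Subgroup (Equiv.Perm X)) (g : Equiv.Perm X)
    (hg : ∀ a ∈ N, g * a * g⁻¹ ∈ N) (x : X) :
    qmMap N g hg (Quotient.mk (qmSetoid N) x) = Quotient.mk (qmSetoid N) (g x) := rfl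

/-- the homomorphism to the permutations of the quotient -/
def qmHom {X : Type} (G N : Subgroup (Equiv.Perm X))
    (hn : ∀ g ∈ G, ∀ a ∈ N, g * a * g⁻¹ ∈ N) : G →* Equiv.Perm (Quotient (qmSetoid N)) where
  toFun g :=
    { toFun := qmMap N g.1 (hn g.1 g.2)
      invFun := qmMap N (g.1)⁻¹ (hn (g.1)⁻¹ (G.inv_mem g.2))
      left_inv := by
        intro q
        induction q using Quotient.inductionOn with
        | h x => rw [qmMap_mk, qmMap_mk]; simp
      right_inv := by
        intro q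
        induction q using Quotient.inductionOn with
        | h x => rw [qmMap_mk, qmMap_mk]; simp }
  map_one' := by
    ext q
    induction q using Quotient.inductionOn with
    | h x => rfl
  map_mul' := by
    intro g h
    ext q
    induction q using Quotient.inductionOn with
    | h x => rfl

theorem qm_orb_conj {X : Type} (G N : Subgroup (Equiv.Perm X))
    (hn : ∀ g ∈ G, ∀ a ∈ N, g * a * g⁻¹ ∈ N) (g : Equiv.Perm X) (hg : g ∈ G) (x : X) :
    Nat.card {y : X // ∃ a ∈ N, a (g x) = y} = Nat.card {y : X // ∃ a ∈ N, a x = y} := by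
  refine (Nat.card_congr (Equiv.subtypeEquiv g ?_)).symm
  intro y
  constructor
  · rintro ⟨a, ha, rfl⟩
    exact ⟨g * a * g⁻¹, hn g hg a ha, by simp⟩
  · rintro ⟨a, ha, h⟩
    refine ⟨g⁻¹ * a * g, ?_, ?_⟩
    · have := hn g⁻¹ (G.inv_mem hg) a ha
      simpa using this
    · have : g⁻¹ (a (g x)) = g⁻¹ (g y) := by rw [h]
      simpa using this

theorem st_QM : ST_QM := by
  intro X _ G N hNG hN hn
  classical
  haveI : Finite (Quotient (qmSetoid N)) := inferInstance
  haveI : Fintype (Quotient (qmSetoid N)) := Fintype.ofFinite _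
  have hpi : ∀ x y : X, Quotient.mk (qmSetoid N) x = Quotient.mk (qmSetoid N) y ↔
      ∃ a ∈ N, a x = y := fun x y => Quotient.eq (r := qmSetoid N)
  refine ⟨Quotient (qmSetoid N), inferInstance, Quotient.mk (qmSetoid N), qmHom G N hn,
    Quotient.mk_surjective, ?_, hpi, fun g x => rfl, ?_⟩
  · refine Fintype.card_lt_of_surjective_not_injective (Quotient.mk (qmSetoid N))
      Quotient.mk_surjective ?_
    intro hinj
    apply hN
    rw [eq_bot_iff]
    intro a ha
    rw [Subgroup.mem_bot]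
    ext x
    have : Quotient.mk (qmSetoid N) x = Quotient.mk (qmSetoid N) (a x) :=
      (hpi x (a x)).2 ⟨a, ha, rfl⟩
    simpa using (hinj this).symm
  · intro x
    unfold orb
    -- the fibres of the map from the orbit of x to the orbit of pi x
    let S := {y : X // ∃ g ∈ G, g x = y}
    let T := {z : Quotient (qmSetoid N) //
      ∃ g ∈ (qmHom G N hn).range, g (Quotient.mk (qmSetoid N) x) = z}
    have hmap : ∀ y : S, ∃ g ∈ (qmHom G N hn).range,
        g (Quotient.mk (qmSetoid N) x) = Quotient.mk (qmSetoid N) y.1 := by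
      rintro ⟨y, g, hg, rfl⟩
      exact ⟨qmHom G N hn ⟨g, hg⟩, ⟨⟨g, hg⟩, rfl⟩, rfl⟩
    let f : S → T := fun y => ⟨Quotient.mk (qmSetoid N) y.1, hmap y⟩
    have hfib : ∀ t : T, Nat.card {s : S // f s = t} = Nat.card {y : X // ∃ a ∈ N, a x = y} := by
      rintro ⟨z, g', ⟨⟨g, hg⟩, rfl⟩, rfl⟩
      rw [← qm_orb_conj G N hn g hg x]
      refine Nat.card_congr ?_
      refine ⟨fun s => ⟨s.1.1, ?_⟩, fun y => ⟨⟨y.1, ?_⟩, ?_⟩, ?_, ?_⟩
      · have h1 : Quotient.mk (qmSetoid N) s.1.1 = Quotient.mk (qmSetoid N) (g x) := by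
          have := congrArg Subtype.val s.2
          exact this
        exact (hpi _ _).1 h1.symm
      · obtain ⟨y, a, ha, rfl⟩ := y
        exact ⟨a * g, G.mul_mem (hNG ha) hg, rfl⟩
      · obtain ⟨y, a, ha, rfl⟩ := y
        apply Subtype.ext
        exact ((hpi (g x) (a (g x))).2 ⟨a, ha, rfl⟩).symm
      · intro s; rfl
      · intro y; rfl
    have hcard : Nat.card S = Nat.card T * Nat.card {y : X // ∃ a ∈ N, a x = y} := by
      haveI : Finite T := inferInstance
      haveI : Fintype T := Fintype.ofFinite _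
      rw [Nat.card_congr (Equiv.sigmaFiberEquiv f).symm, Nat.card_sigma]
      rw [Finset.sum_congr rfl (fun t _ => hfib t)]
      simp [Nat.card_eq_fintype_card]
    exact hcard

end Pool.Agent.Helper17.SV
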